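import Pool.Agent.W188.GP.Stm
import Pool.Agent.W338.QS.Line
import Pool.Agent.W22.QS.Basic

set_option autoImplicit false

open Complex MeasureTheory Set Filter Topology

namespace Pool.Agent.W32.GPT

open Pool.Agent.W188.QS Pool.Agent.W188.GP Pool.Agent.W338.QS

theorem cont_lamE : Continuous lamE := by
  have hU : IsOpen {s : ℂ | 1 < s.im} := isOpen_lt continuous_const Complex.continuous_im
  have hd : DifferentiableOn ℂ XX {s : ℂ | 1 < s.im} := fun s hs =>
    (Pool.Agent.W22.QS.XX_diff (s := s) (le_of_lt hs)).differentiableWithinAt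
  have hd2 : DifferentiableOn ℂ (deriv XX) {s : ℂ | 1 < s.im} := hd.deriv hU
  have hc : ContinuousOn (fun s => deriv XX s / XX s) {s : ℂ | 1 < s.im} :=
    hd2.continuousOn.div hd.continuousOn fun s hs =>
      Pool.Agent.W22.QS.XX_ne_zero (s := s) (le_of_lt hs)
  have hcp : Continuous (fun t : ℝ => cp (max t 100)) := by
    unfold cp
    fun_prop
  have hin : ∀ t : ℝ, cp (max t 100) ∈ {s : ℂ | 1 < s.im} := by
    intro t
    show 1 < (cp (max t 100)).im
    rw [cp_im]
    have := le_max_right t 100
    linarith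
  have h1 : Continuous (fun t : ℝ => deriv XX (cp (max t 100)) / XX (cp (max t 100))) :=
    hc.comp_continuous hcp hin
  have h2 : lamE = fun t : ℝ => (deriv XX (cp (max t 100)) / XX (cp (max t 100))).re := by
    funext t
    unfold lamE lam
    rw [logDeriv_apply]
  rw [h2]
  exact Complex.continuous_re.comp h1

theorem lamE_ge (t : ℝ) : 1 ≤ lamE t := by
  unfold lamE
  exact (qs_line.1 (max t 100) (by have := le_max_right t 100; linarith)).2.2

theorem der_vv (t : ℝ) : HasDerivAt vv (lamE t / (2 * Real.pi)) t := by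
  have h1 := (cont_lamE.integral_hasStrictDerivAt 100 t).hasDerivAt
  have h2 := h1.const_mul (1 / (2 * Real.pi))
  have h3 : 1 / (2 * Real.pi) * lamE t = lamE t / (2 * Real.pi) := by ring
  rw [h3] at h2
  exact h2

theorem mono_vv : StrictMono vv := by
  apply strictMono_of_deriv_pos
  intro t
  rw [(der_vv t).deriv]
  have := lamE_ge t
  have := Real.pi_pos
  positivity

theorem cont_vv : Continuous vv := continuous_iff_continuousAt.mpr fun t => (der_vv t).continuousAt

theorem vv100 : vv 100 = 0 := by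
  unfold vv
  simp

theorem mono_g : Monotone (fun t => vv t - t / (2 * Real.pi)) := by
  apply monotone_of_deriv_nonneg
  · intro t
    exact ((der_vv t).sub ((hasDerivAt_id t).div_const (2 * Real.pi))).differentiableAt
  · intro t
    have h : HasDerivAt (fun t => vv t - t / (2 * Real.pi)) (lamE t / (2 * Real.pi) - 1 / (2 * Real.pi)) t :=
      (der_vv t).sub ((hasDerivAt_id t).div_const (2 * Real.pi))
    rw [h.deriv]
    have h1 := lamE_ge t
    have h2 := Real.pi_pos
    rw [← sub_div]
    apply div_nonneg <;> linarith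

theorem surj_vv : Function.Surjective vv := by
  have hpi := Real.pi_pos
  apply cont_vv.surjective
  · have h1 : ∀ᶠ t : ℝ in atTop, t / (2 * Real.pi) - 100 / (2 * Real.pi) ≤ vv t := by
      filter_upwards [eventually_ge_atTop (100 : ℝ)] with t ht
      have := mono_g ht
      simp only at this
      rw [vv100] at this
      linarith
    refine tendsto_atTop_mono' _ h1 ?_
    apply tendsto_atTop_add_const_right
    exact tendsto_id.atTop_div_const (by positivity)
  · have h1 : ∀ᶠ t : ℝ in atBot, vv t ≤ t / (2 * Real.pi) - 100 / (2 * Real.pi) := by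
      filter_upwards [eventually_le_atBot (100 : ℝ)] with t ht
      have := mono_g ht
      simp only at this
      rw [vv100] at this
      linarith
    refine tendsto_atBot_mono' _ h1 ?_
    apply tendsto_atBot_add_const_right
    exact tendsto_id.atBot_div_const (by positivity)

theorem tau_vv (t : ℝ) : tau (vv t) = t := Function.leftInverse_invFun mono_vv.injective t

theorem vv_tau (y : ℝ) : vv (tau y) = y := Function.rightInverse_invFun surj_vv y

theorem mono_tau : StrictMono tau := by
  intro x y hxy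
  by_contra hc
  push Not at hc
  have := mono_vv.monotone hc
  rw [vv_tau, vv_tau] at this
  linarith

theorem cont_tau : Continuous tau :=
  mono_tau.monotone.continuous_of_surjective fun t => ⟨vv t, tau_vv t⟩

theorem phase (t : ℝ) (ht : 100 ≤ t) : XX (cp t) = XX (cp 100) * cexp (2 * Real.pi * vv t * I) := by
  have hder : ∀ x : ℝ, 100 ≤ x → HasDerivAt (fun x : ℝ => XX (cp x) * cexp (-(2 * Real.pi * vv x * I))) 0 x := by
    intro x hx
    have hd := (Pool.Agent.W22.QS.XX_diff (s := cp x) (by rw [cp_im]; linarith)).hasDerivAt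
    have h1 : HasDerivAt (fun x : ℝ => XX (cp x)) (deriv XX (cp x) * I) x :=
      hd.comp x (hasDerivAt_cp x)
    have h2 : HasDerivAt (fun x : ℝ => ((vv x : ℝ) : ℂ)) ((lamE x / (2 * Real.pi) : ℝ) : ℂ) x :=
      (der_vv x).ofReal_comp
    have h3 : HasDerivAt (fun x : ℝ => -(2 * Real.pi * (vv x : ℂ) * I))
        (-(2 * Real.pi * ((lamE x / (2 * Real.pi) : ℝ) : ℂ) * I)) x :=
      ((h2.const_mul (2 * (Real.pi : ℂ))).mul_const I).neg
    have h4 := h1.mul h3.cexp
    refine h4.congr_deriv ?_
    have hne := Pool.Agent.W22.QS.XX_ne_zero (s := cp x) (by rw [cp_im]; linarith)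
    have hl := (qs_line.1 x (by linarith)).1
    rw [logDeriv_apply, div_eq_iff hne] at hl
    have hE : lamE x = lam x := by unfold lamE; rw [max_eq_left hx]
    have hpi : (Real.pi : ℂ) ≠ 0 := by exact_mod_cast Real.pi_ne_zero
    rw [hl, hE]
    push_cast
    field_simp
    ring
  have h5 : ∀ x ∈ Icc (100 : ℝ) t, XX (cp x) * cexp (-(2 * Real.pi * vv x * I)) =
      XX (cp 100) * cexp (-(2 * Real.pi * vv 100 * I)) := by
    apply constant_of_has_deriv_right_zero
    · intro x hx
      exact (hder x hx.1).continuousAt.continuousWithinAt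
    · intro x hx
      exact (hder x hx.1).hasDerivWithinAt
  have h6 := h5 t ⟨ht, le_refl t⟩
  rw [vv100] at h6
  simp only [ofReal_zero, mul_zero, zero_mul, neg_zero, Complex.exp_zero, mul_one] at h6
  rw [← h6, mul_assoc, ← Complex.exp_add]
  simp

theorem lamE_le (t : ℝ) (ht : 100 ≤ t) : lamE t = lam t ∧ lamE t ≤ Real.log t := by
  have hE : lamE t = lam t := by unfold lamE; rw [max_eq_left ht]
  refine ⟨hE, ?_⟩
  rw [hE]
  have h1 := (qs_line.1 t (by linarith)).2.1
  have h2 := (abs_le.mp h1).2
  have hpi := Real.pi_gt_three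
  have h3 : Real.log (t / (2 * Real.pi)) = Real.log t - Real.log (2 * Real.pi) :=
    Real.log_div (by linarith) (by positivity)
  have h4 : (1 : ℝ) ≤ Real.log (2 * Real.pi) := by
    rw [Real.le_log_iff_exp_le (by positivity)]
    have := Real.exp_one_lt_d9
    linarith
  have h5 : (14 : ℝ) / t ≤ 1 := by
    rw [div_le_one (by linarith)]
    linarith
  rw [h3] at h2
  linarith

theorem mem_nd (γ a b : ℝ) (n : ℤ) : n ∈ nd γ a b ↔ a < tau (n + γ) ∧ tau (n + γ) ≤ b := by
  unfold nd
  rw [Finset.mem_Ioc, Int.floor_lt, Int.le_floor]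
  have h1 : vv a - γ < (n : ℝ) ↔ a < tau (n + γ) := by
    rw [sub_lt_iff_lt_add, ← mono_vv.lt_iff_lt (a := a), vv_tau]
  have h2 : (n : ℝ) ≤ vv b - γ ↔ tau (n + γ) ≤ b := by
    rw [le_sub_iff_add_le, ← mono_vv.le_iff_le (b := b), vv_tau]
  rw [h1, h2]

theorem gp_tau : Pool.Agent.W188.GP.StTau :=
  ⟨mono_vv, cont_vv, cont_lamE, lamE_ge, der_vv, tau_vv, vv_tau, mono_tau, cont_tau, vv100, phase,
    lamE_le, mem_nd⟩

end Pool.Agent.W32.GPT
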