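import Pool.Agent.W911.GP.Stms

/-!
# Few true children in the trees of NOR gates of a random oracle (task GP-PROB)
-/

set_option autoImplicit false

namespace Pool.Agent.W32.GPP

open Finset MeasureTheory Pool.Agent.NPC H568R2 Pool.Agent.H676
open Pool.Agent.H620R2.Gauge Pool.Agent.H591R3.PHG
open Pool.Agent.W911.IB (Ew bt law_local)
open Pool.Agent.W911.AL
open Pool.Agent.W911.GP (Few S_PROB bitsOf_valB)

/-! ### Product weights -/

theorem ber_nonneg {p : ℝ} (h0 : 0 ≤ p) (h1 : p ≤ 1) (b : Bool) : 0 ≤ ber p b := by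
  cases b <;> simp [ber] <;> linarith

theorem ber_sum (p : ℝ) : ∑ b, ber p b = 1 := by
  rw [Fintype.sum_bool]
  simp [ber]

/-- the weights of the patterns of the children -/
noncomputable def pat (p : ℝ) (c : ℕ) (y : Fin c → Bool) : ℝ := ∏ i, ber p (y i)

theorem pat_sum (p : ℝ) (c : ℕ) : ∑ y : Fin c → Bool, pat p c y = 1 := by
  unfold pat
  rw [← Fintype.piFinset_univ, ← Finset.prod_univ_sum]
  simp only [ber_sum, Finset.prod_const_one]

theorem Ex_curry {G : Type} [Fintype G] [DecidableEq G] (p : ℝ) (c : ℕ)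
    (F : (G × Fin c → Bool) → ℝ) :
    Ex (ber p) F = Ex (pat p c) (fun Y : G → Fin c → Bool => F (fun gi => Y gi.1 gi.2)) := by
  unfold Ex
  rw [← (Equiv.curry G (Fin c) Bool).symm.sum_comp]
  refine Finset.sum_congr rfl fun Y _ => ?_
  congr 1
  rw [Fintype.prod_prod_type]
  rfl

theorem pat_push (p : ℝ) (c : ℕ) (b : Bool) :
    ber ((1 - p) ^ c) b =
      ∑ y ∈ univ.filter (fun y : Fin c → Bool => decide (∀ i, y i = false) = b), pat p c y := by
  have htrue : univ.filter (fun y : Fin c → Bool => decide (∀ i, y i = false) = true) =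
      {fun _ => false} := by
    ext y
    simp [funext_iff]
  have h1 : ∑ y ∈ univ.filter (fun y : Fin c → Bool => decide (∀ i, y i = false) = true),
      pat p c y = (1 - p) ^ c := by
    rw [htrue, Finset.sum_singleton]
    simp [pat, ber]
  cases b with
  | true => rw [h1]; simp [ber]
  | false =>
    have h2 := Finset.sum_filter_add_sum_filter_not (univ : Finset (Fin c → Bool))
      (fun y => decide (∀ i, y i = false) = true) (pat p c)
    rw [pat_sum, h1] at h2
    have h3 : univ.filter (fun y : Fin c → Bool => ¬ decide (∀ i, y i = false) = true) =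
        univ.filter (fun y : Fin c → Bool => decide (∀ i, y i = false) = false) := by
      ext y
      simp
    rw [h3] at h2
    simp only [ber]
    simp only [Bool.false_eq_true, if_false]
    linarith

theorem Ex_nor {G : Type} [Fintype G] [DecidableEq G] (p : ℝ) (c : ℕ) (Φ : (G → Bool) → ℝ) :
    Ex (ber p) (fun z : G × Fin c → Bool => Φ (fun g => decide (∀ i, z (g, i) = false))) =
      Ex (ber ((1 - p) ^ c)) Φ := by
  rw [Ex_curry]
  exact Ex_push (fun y : Fin c → Bool => decide (∀ i, y i = false)) (pat p c)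
    (ber ((1 - p) ^ c)) (pat_push p c) Φ

open Classical in
theorem tail {G : Type} [Fintype G] [DecidableEq G] {p : ℝ} (h0 : 0 ≤ p) (h1 : p ≤ 1) (c t : ℕ)
    (g : G) :
    Ex (ber p) (fun z : G × Fin c → Bool =>
      if t < (univ.filter (fun i => z (g, i) = true)).card then (1 : ℝ) else 0) ≤
      (c * p) ^ (t + 1) / (t + 1).factorial := by
  have hle : Ex (ber p) (fun z : G × Fin c → Bool =>
      if t < (univ.filter (fun i => z (g, i) = true)).card then (1 : ℝ) else 0) ≤
      Ex (ber p) (fun z : G × Fin c → Bool => ∑ S ∈ (univ : Finset (Fin c)).powersetCard (t + 1),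
        1 * (if ∀ i ∈ S.image (fun i => (g, i)), z i = true then (1 : ℝ) else 0)) := by
    apply Ex_mono (ber_nonneg h0 h1)
    intro z
    have hnn : ∀ S ∈ (univ : Finset (Fin c)).powersetCard (t + 1),
        (0 : ℝ) ≤ 1 * (if ∀ i ∈ S.image (fun i => (g, i)), z i = true then (1 : ℝ) else 0) := by
      intro S _
      split_ifs <;> norm_num
    by_cases h : t < (univ.filter (fun i => z (g, i) = true)).card
    · rw [if_pos h]
      obtain ⟨S, hS, hc⟩ := Finset.exists_subset_card_eq (Nat.succ_le_of_lt h)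
      refine le_trans ?_ (Finset.single_le_sum hnn
        (Finset.mem_powersetCard.2 ⟨Finset.subset_univ S, hc⟩))
      rw [if_pos, one_mul]
      intro i hi
      obtain ⟨j, hj, rfl⟩ := Finset.mem_image.1 hi
      exact (Finset.mem_filter.1 (hS hj)).2
    · rw [if_neg h]
      exact Finset.sum_nonneg hnn
  refine hle.trans ?_
  rw [Ex_sum]
  have hone : ∀ S ∈ (univ : Finset (Fin c)).powersetCard (t + 1),
      Ex (ber p) (fun z : G × Fin c → Bool =>
        1 * (if ∀ i ∈ S.image (fun i => (g, i)), z i = true then (1 : ℝ) else 0)) =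
      p ^ (t + 1) := by
    intro S hS
    have h2 := Ex_indep (ber_sum p) (fun b => b = true) (S.image (fun i => (g, i)))
      (fun _ : G × Fin c → Bool => (1 : ℝ)) (fun _ _ _ _ => rfl)
    have hcard : (S.image (fun i => (g, i))).card = t + 1 := by
      rw [Finset.card_image_of_injective _ (fun a b h => (Prod.mk.inj h).2)]
      exact (Finset.mem_powersetCard.1 hS).2
    rw [hcard, Ex_const (ber_sum p), mul_one] at h2
    have h3 : ∑ a ∈ univ.filter (fun b : Bool => b = true), ber p a = p := by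
      rw [Finset.filter_eq' univ true, if_pos (Finset.mem_univ _), Finset.sum_singleton]
      simp [ber]
    rw [h3] at h2
    exact h2
  rw [Finset.sum_congr rfl hone, Finset.sum_const, Finset.card_powersetCard, Finset.card_univ,
    Fintype.card_fin, nsmul_eq_mul]
  have h4 : ((c.choose (t + 1) : ℕ) : ℝ) ≤ (c : ℝ) ^ (t + 1) / (t + 1).factorial :=
    Nat.choose_le_pow_div (t + 1) c
  calc ((c.choose (t + 1) : ℕ) : ℝ) * p ^ (t + 1)
      ≤ ((c : ℝ) ^ (t + 1) / (t + 1).factorial) * p ^ (t + 1) :=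
        mul_le_mul_of_nonneg_right h4 (pow_nonneg h0 _)
    _ = (c * p) ^ (t + 1) / (t + 1).factorial := by rw [mul_pow]; ring

/-! ### The bad event -/

/-- Some gate has more than `t` true children. -/
def BD (t : ℕ) {X : Type} : (cs : List ℕ) → (Idx X cs → Bool) → Prop
  | [], _ => False
  | c :: cs, z => (∃ g : Idx X cs, t < (univ.filter (fun i : Fin c => z (g, i) = true)).card) ∨
      BD t cs (fun g => decide (∀ i : Fin c, z (g, i) = false))

/-- The probabilities and the numbers of children fit. -/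
def Win (n : ℕ) : List ℕ → ℝ → Prop
  | [], _ => True
  | a :: as, p => 2 ^ a * p ≤ 33 * n ∧ Win n as ((1 - p) ^ (2 ^ a))

theorem card_idx (X : Type) [Fintype X] [DecidableEq X] : ∀ as : List ℕ,
    Fintype.card (Idx X (pw as)) = Fintype.card X * 2 ^ as.sum := by
  intro as
  induction as with
  | nil => simp [pw]; rfl
  | cons a as ih =>
    have h : Fintype.card (Idx X (pw (a :: as))) =
        Fintype.card (Idx X (pw as) × Fin (2 ^ a)) := rfl
    rw [h, Fintype.card_prod, ih, Fintype.card_fin, List.sum_cons, pow_add]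
    ring

open Classical in
theorem bd_le {X : Type} [Fintype X] [DecidableEq X] (t c : ℕ) (cs : List ℕ)
    (z : Idx X cs × Fin c → Bool) :
    (if BD t (X := X) (c :: cs) z then (1 : ℝ) else 0) ≤
      (∑ g ∈ (univ : Finset (Idx X cs)), if t < (univ.filter (fun i => z (g, i) = true)).card
        then (1 : ℝ) else 0) +
      (if BD t cs (fun g => decide (∀ i, z (g, i) = false)) then (1 : ℝ) else 0) := by
  have hnn : ∀ g ∈ (univ : Finset (Idx X cs)), (0 : ℝ) ≤
      if t < (univ.filter (fun i => z (g, i) = true)).card then (1 : ℝ) else 0 := by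
    intro g _
    split_ifs <;> norm_num
  have hs := Finset.sum_nonneg hnn
  have h3 : (0 : ℝ) ≤ if BD t cs (fun g => decide (∀ i, z (g, i) = false))
    then (1 : ℝ) else 0 := by split_ifs <;> norm_num
  by_cases hB : BD t (X := X) (c :: cs) z
  · rw [if_pos hB]
    have hB' : (∃ g : Idx X cs, t < (univ.filter (fun i : Fin c => z (g, i) = true)).card) ∨
      BD t cs (fun g => decide (∀ i : Fin c, z (g, i) = false)) := hB
    rcases hB' with ⟨g, hg⟩ | hB
    · have h2 := Finset.single_le_sum hnn (Finset.mem_univ g)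
      rw [if_pos hg] at h2
      linarith
    · rw [if_pos hB]
      linarith
  · rw [if_neg hB]
    linarith

open Classical in
theorem bd_bound (n t : ℕ) (X : Type) [Fintype X] [DecidableEq X] : ∀ (as : List ℕ) (p : ℝ),
    0 ≤ p → p ≤ 1 → Win n as p →
    Ex (ber p) (fun z : Idx X (pw as) → Bool => if BD t (pw as) z then (1 : ℝ) else 0) ≤
      as.length * (Fintype.card X * 2 ^ as.sum) *
        ((33 * n : ℝ) ^ (t + 1) / (t + 1).factorial) := by
  intro as
  induction as with
  | nil =>
    intro p h0 h1 _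
    have h : Ex (ber p) (fun z : Idx X (pw []) → Bool => if BD t (pw []) z then (1 : ℝ) else 0) =
        Ex (ber p) (fun z : Idx X (pw []) → Bool => (0 : ℝ)) := by
      congr 1
      funext z
      exact if_neg id
    rw [h, Ex_const (ber_sum p)]
    simp
  | cons a as ih =>
    intro p h0 h1 hW
    obtain ⟨hw1, hw2⟩ := hW
    set δ : ℝ := (33 * n : ℝ) ^ (t + 1) / (t + 1).factorial with hδ
    have hδ0 : 0 ≤ δ := by positivity
    set G := Idx X (pw as) with hG
    have hle : Ex (ber p) (fun z : Idx X (pw (a :: as)) → Bool =>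
        if BD t (pw (a :: as)) z then (1 : ℝ) else 0) ≤
        Ex (ber p) (fun z : G × Fin (2 ^ a) → Bool =>
          (∑ g ∈ (univ : Finset G), if t < (univ.filter (fun i => z (g, i) = true)).card
            then (1 : ℝ) else 0) +
          (fun y : G → Bool => if BD t (pw as) y then (1 : ℝ) else 0)
            (fun g => decide (∀ i, z (g, i) = false))) := by
      apply Ex_mono (ber_nonneg h0 h1)
      intro z
      exact bd_le t (2 ^ a) (pw as) z
    refine hle.trans ?_
    rw [Ex_add, Ex_sum, Ex_nor p (2 ^ a) (fun y : G → Bool => if BD t (pw as) y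
      then (1 : ℝ) else 0)]
    have hq0 : 0 ≤ (1 - p) ^ (2 ^ a) := pow_nonneg (by linarith) _
    have hq1 : (1 - p) ^ (2 ^ a) ≤ 1 := pow_le_one₀ (by linarith) (by linarith)
    have h5 := ih _ hq0 hq1 hw2
    have h6 : ∑ g ∈ (univ : Finset G), Ex (ber p) (fun z : G × Fin (2 ^ a) → Bool =>
        if t < (univ.filter (fun i => z (g, i) = true)).card then (1 : ℝ) else 0) ≤
        (Fintype.card X * 2 ^ as.sum) * δ := by
      have h7 : ∀ g ∈ (univ : Finset G), Ex (ber p) (fun z : G × Fin (2 ^ a) → Bool =>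
        if t < (univ.filter (fun i => z (g, i) = true)).card then (1 : ℝ) else 0) ≤ δ := by
        intro g _
        refine (tail h0 h1 (2 ^ a) t g).trans ?_
        rw [hδ]
        apply div_le_div_of_nonneg_right _ (by positivity)
        apply pow_le_pow_left₀ (by positivity)
        push_cast
        exact hw1
      refine (Finset.sum_le_sum h7).trans ?_
      have hcd : Fintype.card G = Fintype.card X * 2 ^ as.sum := card_idx X as
      rw [Finset.sum_const, Finset.card_univ, hcd, nsmul_eq_mul]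
      push_cast
      exact le_refl _
    have h8 : (1 : ℝ) ≤ 2 ^ a := one_le_pow₀ (by norm_num)
    have h9 : (Fintype.card X : ℝ) * 2 ^ as.sum ≤ Fintype.card X * 2 ^ (a :: as).sum := by
      rw [List.sum_cons, pow_add]
      have h10 : (0 : ℝ) ≤ (Fintype.card X : ℝ) * 2 ^ as.sum := by positivity
      nlinarith
    rw [List.length_cons]
    push_cast
    have h11 : (as.length : ℝ) * (Fintype.card X * 2 ^ as.sum) * δ ≤
        as.length * (Fintype.card X * 2 ^ (a :: as).sum) * δ :=
      mul_le_mul_of_nonneg_right (mul_le_mul_of_nonneg_left h9 (Nat.cast_nonneg _)) hδ0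
    have h12 : ((Fintype.card X : ℝ) * 2 ^ as.sum) * δ ≤
        (Fintype.card X * 2 ^ (a :: as).sum) * δ := mul_le_mul_of_nonneg_right h9 hδ0
    calc _ ≤ (Fintype.card X * 2 ^ as.sum) * δ +
          as.length * (Fintype.card X * 2 ^ as.sum) * δ := add_le_add h6 h5
      _ ≤ (Fintype.card X * 2 ^ (a :: as).sum) * δ +
          as.length * (Fintype.card X * 2 ^ (a :: as).sum) * δ := add_le_add h12 h11
      _ = _ := by ring

/-! ### The link with `Few` -/

/-- `P` holds at all the nodes below `q` at the end of the list of levels. -/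
def AllN (P : List Bool → Prop) : List ℕ → List Bool → Prop
  | [], q => P q
  | b :: r, q => ∀ i < 2 ^ b, AllN P r (q ++ bitsOf b i)

theorem allN_append (b : ℕ) : ∀ (P : List Bool → Prop) (r : List ℕ) (q : List Bool),
    AllN (fun q' => ∀ i < 2 ^ b, P (q' ++ bitsOf b i)) r q → AllN P (r ++ [b]) q := by
  intro P r
  induction r with
  | nil => intro q h; exact h
  | cons d r ih => intro q h i hi; exact ih _ (h i hi)

theorem allN_of {X : Type} (xs : X → List Bool) : ∀ (as : List ℕ) (P : List Bool → Prop),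
    (∀ g : Idx X (pw as), P (addr xs as g)) → ∀ j, AllN P as.reverse (xs j) := by
  intro as
  induction as with
  | nil => intro P h j; exact h j
  | cons b bs ih =>
    intro P h j
    rw [List.reverse_cons]
    apply allN_append
    apply ih
    intro g i hi
    exact h (g, ⟨i, hi⟩)

theorem few_append (t : ℕ) (v : List Bool → Bool) (a : ℕ) : ∀ (r : List ℕ) (q : List Bool),
    Few t (up a v) r q →
    AllN (fun q' => ((Finset.range (2 ^ a)).filter
      (fun i => v (q' ++ bitsOf a i) = true)).card ≤ t) r q → Few t v (r ++ [a]) q := by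
  intro r
  induction r with
  | nil => intro q _ h; exact ⟨h, fun i _ => trivial⟩
  | cons b r ih =>
    intro q h1 h2
    refine ⟨?_, fun i hi => ih _ (h1.2 i hi) (h2 i hi)⟩
    have h3 := h1.1
    show ((Finset.range (2 ^ b)).filter
      (fun i => ((r ++ [a]).foldr up v) (q ++ bitsOf b i) = true)).card ≤ t
    rw [List.foldr_append]
    exact h3

theorem few_of {X : Type} (t : ℕ) (xs : X → List Bool) : ∀ (as : List ℕ) (v : List Bool → Bool),
    ¬ BD t (pw as) (fun g : Idx X (pw as) => v (addr xs as g)) →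
    ∀ j, Few t v as.reverse (xs j) := by
  intro as
  induction as with
  | nil => intro v _ j; exact trivial
  | cons a as ih =>
    intro v h j
    have h' : ¬ ((∃ g : Idx X (pw as), t < (univ.filter (fun i : Fin (2 ^ a) =>
        v (addr xs as g ++ bitsOf a i.val) = true)).card) ∨
        BD t (pw as) (fun g => decide (∀ i : Fin (2 ^ a),
          v (addr xs as g ++ bitsOf a i.val) = false))) := h
    rw [not_or] at h'
    obtain ⟨h1, h2⟩ := h'
    push Not at h1
    rw [List.reverse_cons]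
    apply few_append
    · apply ih
      have e : (fun g : Idx X (pw as) => decide (∀ i : Fin (2 ^ a),
          v (addr xs as g ++ bitsOf a i.val) = false)) =
          fun g : Idx X (pw as) => up a v (addr xs as g) := by
        funext g
        unfold up
        congr 1
        apply propext
        constructor
        · intro h i hi
          exact h ⟨i, hi⟩
        · intro h i
          exact h i.val i.isLt
      rw [e] at h2
      exact h2
    · apply allN_of
      intro g
      refine le_trans (le_of_eq ?_) (h1 g)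
      symm
      apply Finset.card_bij (fun (i : Fin (2 ^ a)) _ => i.val)
      · intro i hi
        rw [Finset.mem_filter] at hi ⊢
        exact ⟨Finset.mem_range.2 i.2, hi.2⟩
      · intro i _ j _ hij
        exact Fin.ext hij
      · intro i hi
        rw [Finset.mem_filter, Finset.mem_range] at hi
        exact ⟨⟨i, hi.1⟩, Finset.mem_filter.2 ⟨Finset.mem_univ _, hi.2⟩, rfl⟩

/-! ### The windows -/

theorem szs_win {n B : ℕ} (hn : 5 ≤ n) : ∀ (k P : ℕ) (law : Option Bool → ℝ), Inv n law →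
    116 * n + 7 + k * (n + 8) ≤ B →
    Near B P (law none / 2 ^ (4 * n) + law (some true)) (1 / 2 ^ (6 + k * (n + 8))) →
      Win n (szs n B k P) (law none / 2 ^ (4 * n) + law (some true)) := by
  have hnr : (5 : ℝ) ≤ n := by exact_mod_cast hn
  intro k
  induction k with
  | zero =>
    intro P law hinv hB hnear
    have hε : (1 : ℝ) / 2 ^ (6 + 0 * (n + 8)) ≤ 1 / 64 := by
      rw [zero_mul, add_zero]
      norm_num
    have hW : ((2 ^ (B - 1) : ℕ) : ℝ) = 1 / 2 * 2 ^ B := by
      obtain ⟨b, rfl⟩ : ∃ b, B = b + 1 := ⟨B - 1, by omega⟩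
      rw [Nat.add_sub_cancel, pow_succ]
      push_cast
      ring
    obtain ⟨h1, h2, _⟩ := ex_window hn hinv.lo hinv.hi hε hnear hW le_rfl (by linarith)
    exact ⟨by linarith, trivial⟩
  | succ k ih =>
    intro P law hinv hB hnear
    set ε : ℝ := 1 / 2 ^ (6 + (k + 1) * (n + 8)) with hεdef
    have hε0 : 0 ≤ ε := by positivity
    have hε : ε ≤ 1 / 64 := by
      rw [hεdef]
      apply one_div_le_one_div_of_le (by norm_num)
      calc (64 : ℝ) = 2 ^ 6 := by norm_num
        _ ≤ _ := pow_le_pow_right₀ (by norm_num) (by omega)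
    have hnpow : (n : ℝ) ≤ 2 ^ n := by exact_mod_cast (Nat.lt_two_pow_self (n := n)).le
    have hn2 : 132 * (n : ℝ) ≤ 2 ^ (n + 7) := by
      have h3 : n + 1 ≤ 2 ^ n := Nat.lt_two_pow_self
      have h4 : 66 * n ≤ 2 ^ (n + 6) := by
        have h5 : ∀ m : ℕ, 66 * (m + 5) ≤ 2 ^ (m + 11) := by
          intro m
          induction m with
          | zero => norm_num
          | succ m ih =>
            have e : (2 : ℕ) ^ (m + 1 + 11) = 2 ^ (m + 11) * 2 := by
              rw [← pow_succ]
            have : 2 ^ 11 ≤ 2 ^ (m + 11) := Nat.pow_le_pow_right (by norm_num) (by omega)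
            omega
        obtain ⟨m, rfl⟩ : ∃ m, n = m + 5 := ⟨n - 5, by omega⟩
        exact h5 m
      have h6 : 132 * n ≤ 2 ^ (n + 7) := by
        rw [show n + 7 = (n + 6) + 1 by ring, pow_succ]; omega
      exact_mod_cast h6
    have hε2 : 66 * n * ε ≤ 1 := by
      rw [hεdef, mul_one_div, div_le_one (by positivity)]
      calc 66 * (n : ℝ) ≤ 132 * n := by linarith
        _ ≤ 2 ^ (n + 7) := hn2
        _ ≤ _ := pow_le_pow_right₀ (by norm_num) (by
            have : (k + 1) * (n + 8) = k * (n + 8) + (n + 8) := by ring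
            omega)
    have hW : ((31 * n * 2 ^ (B - 1) : ℕ) : ℝ) = 31 / 2 * n * 2 ^ B := by
      obtain ⟨b, rfl⟩ : ∃ b, B = b + 1 := ⟨B - 1, by omega⟩
      rw [Nat.add_sub_cancel, pow_succ]
      push_cast
      ring
    obtain ⟨h1, h2, h3⟩ := ex_window hn hinv.lo hinv.hi hε hnear hW (by linarith)
      (by linarith)
    rw [szs]
    set a := ex n (31 * n * 2 ^ (B - 1)) P with ha
    set p := law none / 2 ^ (4 * n) + law (some true) with hp
    have hc2 : (((2 ^ a : ℕ)) : ℝ) = 2 ^ a := by push_cast; rfl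
    have hinv' := inv_step_w (c := 2 ^ a) hn hinv (by rw [hc2]; linarith)
      (by rw [hc2]; linarith)
    have hp' : nxt (1 / 2 ^ (4 * n)) (1 / 2 ^ (4 * n)) (1 / 2 ^ (2 * n)) (8 * n * 2 ^ (4 * n))
        (2 ^ a) law none / 2 ^ (4 * n) +
        nxt (1 / 2 ^ (4 * n)) (1 / 2 ^ (4 * n)) (1 / 2 ^ (2 * n)) (8 * n * 2 ^ (4 * n)) (2 ^ a)
        law (some true) = (1 - p) ^ (2 ^ a) := by
      have ht0 : (0 : ℝ) < 1 / 2 ^ (4 * n) := by positivity
      have ht1 : (1 : ℝ) / 2 ^ (4 * n) < 1 := by
        rw [div_lt_one (by positivity)]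
        exact one_lt_pow₀ (by norm_num) (by omega)
      have hs : 1 ≤ 8 * n * 2 ^ (4 * n) := Nat.mul_pos (by omega) (by positivity)
      have e := nxt_p (c := 2 ^ a) (ξ := 1 / 2 ^ (2 * n)) ht0 ht1 ht0 hs hinv.sum
      rw [one_div_mul_eq_div, one_div_mul_eq_div] at e
      exact e
    have hlo' := hinv'.lo
    rw [hp'] at hlo'
    have hnear' := near_step (a := a) hn hinv.lo hinv.hi hε0 hε hε2 hnear (by linarith)
      (ex_le _ _ _) hlo'
    have hnear2 : Near B ((sqd B)^[a] (2 ^ B - P)) ((1 - p) ^ (2 ^ a))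
        (1 / 2 ^ (6 + k * (n + 8))) := by
      refine le_trans hnear' (mul_le_mul_of_nonneg_right ?_ ?_)
      · have e1 : 132 * n * ε ≤ 1 / 2 * (1 / 2 ^ (6 + k * (n + 8))) := by
          have e2 : (2 : ℝ) ^ (6 + (k + 1) * (n + 8)) = 2 ^ (n + 7) * (2 * 2 ^ (6 + k * (n + 8))) := by
            rw [← pow_succ', ← pow_add]
            congr 1
            ring
          rw [hεdef, e2]
          rw [mul_one_div, div_le_iff₀ (by positivity)]
          calc 132 * (n : ℝ) ≤ 2 ^ (n + 7) := hn2
            _ = 1 / 2 * (1 / 2 ^ (6 + k * (n + 8))) * (2 ^ (n + 7) * (2 * 2 ^ (6 + k * (n + 8)))) := by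
                field_simp
        have e3 : (2 : ℝ) ^ (116 * n) / 2 ^ B ≤ 1 / 2 * (1 / 2 ^ (6 + k * (n + 8))) := by
          rw [div_le_iff₀ (by positivity)]
          have e4 : (2 : ℝ) ^ (116 * n + 7 + k * (n + 8)) ≤ 2 ^ B :=
            pow_le_pow_right₀ (by norm_num) (by
              have : (k + 1) * (n + 8) = k * (n + 8) + (n + 8) := by ring
              omega)
          have e5 : (2 : ℝ) ^ (116 * n + 7 + k * (n + 8)) = 2 ^ (116 * n) * (2 * 2 ^ (6 + k * (n + 8))) := by
            rw [← pow_succ', ← pow_add]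
            congr 1
            ring
          rw [e5] at e4
          calc (2 : ℝ) ^ (116 * n) = 1 / 2 * (1 / 2 ^ (6 + k * (n + 8))) *
                (2 ^ (116 * n) * (2 * 2 ^ (6 + k * (n + 8)))) := by field_simp
            _ ≤ _ := mul_le_mul_of_nonneg_left e4 (by positivity)
        linarith
      · exact (Real.exp_pos _).le.trans hlo'
    rw [← hp'] at hnear2
    have hX := ih _ _ hinv' (by
      have : (k + 1) * (n + 8) = k * (n + 8) + (n + 8) := by ring
      omega) hnear2
    rw [hp'] at hX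
    exact ⟨by linarith, hX⟩

theorem Sz_win {n : ℕ} (hn : 5 ≤ n) (κ : ℕ) : Win n (Sz n κ) (1 / 2 ^ (8 * n)) := by
  have hs : 1 ≤ 8 * n := by omega
  have hT : (0 : ℝ) < 1 / 2 ^ (4 * n) := by positivity
  obtain ⟨h2, h3⟩ := nxt_law0 (w := 8 * n) (smin := 8 * n) hs le_rfl hT
  have e1 : ((1 : ℝ) / 2) ^ (8 * n) / (1 / 2 ^ (4 * n)) / 2 ^ (4 * n) + 0 = 1 / 2 ^ (8 * n) := by
    rw [one_div_pow]
    field_simp
    ring
  have e2 : (((2 ^ (BB n κ - 8 * n) : ℕ)) : ℝ) / 2 ^ BB n κ = 1 / 2 ^ (8 * n) := by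
    rw [Nat.cast_pow, Nat.cast_ofNat, div_eq_div_iff (by positivity) (by positivity), ← pow_add,
      one_mul]
    congr 1
    unfold BB
    omega
  have h := szs_win (B := BB n κ) hn κ (2 ^ (BB n κ - 8 * n)) _ (inv_start hn) (le_of_eq rfl) (by
    rw [h2, h3]
    unfold Near
    rw [e1, e2, sub_self, abs_zero]
    positivity)
  rw [h2, h3, e1] at h
  exact h

/-! ### The transfer to oracles -/

open Classical in
theorem Ew_fair (N : ℕ) (Φ : (Fin N → Bool) → ℝ) :
    Ew (bt (fun _ => ⟨1 / 2, by norm_num, by norm_num⟩) N) Φ = Ex unif Φ := by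
  unfold Ew Ex
  refine Finset.sum_congr rfl fun a _ => ?_
  congr 1
  refine Finset.prod_congr rfl fun i _ => ?_
  unfold bt unif
  split_ifs <;> norm_num

/-- the bad event for the leaves -/
def BL (t : ℕ) {X : Type} (w : ℕ) (as : List ℕ) (z : Idx X (w :: pw as) → Bool) : Prop :=
  BD t (pw as) (fun g => decide (∀ i : Fin w, z (g, i) = false))

theorem few_leaves {X : Type} (t : ℕ) (xs : X → List Bool) (as : List ℕ) (w : ℕ) (A : Oracle)
    (h : ¬ BL t w as (leaves xs as w A)) (j : X) :
    Few t (bitv A w) as.reverse (xs j) := by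
  apply few_of t xs as (bitv A w)
  intro hB
  apply h
  unfold BL
  have e : (fun g : Idx X (pw as) => decide (∀ i : Fin w, leaves xs as w A (g, i) = false)) =
      fun g : Idx X (pw as) => bitv A w (addr xs as g) := by
    funext g
    unfold bitv
    congr 1
    apply propext
    constructor
    · intro h i hi
      exact h ⟨i, hi⟩
    · intro h i
      exact h i.val i.isLt
  rw [e]
  exact hB

open Classical in
theorem bl_prob {n : ℕ} (hn : 5 ≤ n) (κ t K : ℕ) :
    Ex (ber (1 / 2)) (fun z : Idx (Fin K) (8 * n :: pw (Sz n κ)) → Bool =>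
      if BL t (8 * n) (Sz n κ) z then (1 : ℝ) else 0) ≤
      (κ + 1) * (K * 2 ^ (Sz n κ).sum) * ((33 * n : ℝ) ^ (t + 1) / (t + 1).factorial) := by
  have h1 := Ex_nor (G := Idx (Fin K) (pw (Sz n κ))) (1 / 2) (8 * n)
    (fun y => if BD t (pw (Sz n κ)) y then (1 : ℝ) else 0)
  have e : (1 - (1 / 2 : ℝ)) ^ (8 * n) = 1 / 2 ^ (8 * n) := by
    rw [← one_div_pow]; norm_num
  rw [e] at h1
  have h2 := bd_bound n t (Fin K) (Sz n κ) (1 / 2 ^ (8 * n)) (by positivity)
    (by rw [div_le_one (by positivity)]; exact one_le_pow₀ (by norm_num)) (Sz_win hn κ)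
  rw [← h1, Sz_length, Fintype.card_fin] at h2
  push_cast at h2
  exact h2

open Classical in
theorem law_bl {ℓ κ t K N : ℕ} (hn : 5 ≤ ℓ) (xs : Fin K → List Bool)
    (hxi : Function.Injective xs) (hxl : ∀ j, (xs j).length = ℓ)
    (hpos : ∀ g : Idx (Fin K) (8 * ℓ :: pw (Sz ℓ κ)),
      idx (addr xs (Sz ℓ κ) g.1 ++ List.replicate g.2.val true) < N) :
    fair {A : Oracle | BL t (8 * ℓ) (Sz ℓ κ) (leaves xs (Sz ℓ κ) (8 * ℓ) A)} ≤
      ENNReal.ofReal ((κ + 1) * (K * 2 ^ (Sz ℓ κ).sum) *
        ((33 * ℓ : ℝ) ^ (t + 1) / (t + 1).factorial)) := by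
  have hset : {A : Oracle | BL t (8 * ℓ) (Sz ℓ κ) (leaves xs (Sz ℓ κ) (8 * ℓ) A)} =
      {A : Oracle | (fun a : Fin N → Bool => BL t (8 * ℓ) (Sz ℓ κ)
        (fun g => a (posz xs (Sz ℓ κ) ℓ N hpos g))) (pre N A)} := by
    ext A
    have e : leaves xs (Sz ℓ κ) (8 * ℓ) A =
        fun g => pre N A (posz xs (Sz ℓ κ) ℓ N hpos g) := by
      funext g
      show A (addr xs (Sz ℓ κ) g.1 ++ List.replicate g.2.val true) =
        A (str (idx (addr xs (Sz ℓ κ) g.1 ++ List.replicate g.2.val true)))
      rw [str_idx]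
    show BL t (8 * ℓ) (Sz ℓ κ) (leaves xs (Sz ℓ κ) (8 * ℓ) A) ↔ _
    rw [e]
    rfl
  rw [hset]
  unfold fair
  refine (le_of_eq (law_local _ N (fun a : Fin N → Bool => BL t (8 * ℓ) (Sz ℓ κ)
        (fun g => a (posz xs (Sz ℓ κ) ℓ N hpos g))))).trans ?_
  rw [Ew_fair]
  apply ENNReal.ofReal_le_ofReal
  have hinj := posz_inj xs hxi hxl (Sz ℓ κ) ℓ N hpos
  rw [Ex_overwrite (posz xs (Sz ℓ κ) ℓ N hpos) hinj]
  have hkey : ∀ a : Fin N → Bool,
      Ex (ber (1 / 2)) (fun z' : Idx (Fin K) (8 * ℓ :: pw (Sz ℓ κ)) → Bool =>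
        (fun a : Fin N → Bool => if BL t (8 * ℓ) (Sz ℓ κ)
          (fun g => a (posz xs (Sz ℓ κ) ℓ N hpos g)) then (1 : ℝ) else 0)
        (fun i => if h : ∃ j, posz xs (Sz ℓ κ) ℓ N hpos j = i then z' h.choose else a i)) ≤
      (κ + 1) * (K * 2 ^ (Sz ℓ κ).sum) * ((33 * ℓ : ℝ) ^ (t + 1) / (t + 1).factorial) := by
    intro a
    refine le_trans (le_of_eq ?_) (bl_prob hn κ t K)
    congr 1
    funext z'
    have e1 : (fun g => (fun i => if h : ∃ j, posz xs (Sz ℓ κ) ℓ N hpos j = i then z' h.choose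
        else a i) (posz xs (Sz ℓ κ) ℓ N hpos g)) = z' := by
      funext g
      have hex : ∃ j, posz xs (Sz ℓ κ) ℓ N hpos j = posz xs (Sz ℓ κ) ℓ N hpos g := ⟨g, rfl⟩
      show (if h : ∃ j, posz xs (Sz ℓ κ) ℓ N hpos j = posz xs (Sz ℓ κ) ℓ N hpos g then
        z' h.choose else a (posz xs (Sz ℓ κ) ℓ N hpos g)) = z' g
      rw [dif_pos hex]
      exact congrArg z' (hinj hex.choose_spec)
    beta_reduce at e1 ⊢
    rw [e1]
  refine (Ex_mono unif_nonneg hkey).trans (le_of_eq ?_)
  exact Ex_const unif_sum _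

theorem bitsOf_surj {x : List Bool} {ℓ : ℕ} (h : x.length = ℓ) :
    ∃ j : Fin (2 ^ ℓ), bitsOf ℓ j.val = x := by
  have h1 := bitsOf_valB x
  have h2 := valB_lt x
  rw [h] at h1 h2
  exact ⟨⟨valB x, h2⟩, h1⟩

theorem prob : S_PROB := by
  intro ℓ κ t hn
  set xs : Fin (2 ^ ℓ) → List Bool := fun j => bitsOf ℓ j.val with hxs
  have hxl : ∀ j, (xs j).length = ℓ := fun j => length_bitsOf ℓ j.val
  have hxi : Function.Injective xs := by
    intro j j' h
    exact Fin.ext (bitsOf_inj j.2 j'.2 h)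
  set N : ℕ := 2 ^ (ℓ + (Sz ℓ κ).sum + 8 * ℓ + 1) with hN
  have hpos : ∀ g : Idx (Fin (2 ^ ℓ)) (8 * ℓ :: pw (Sz ℓ κ)),
      idx (addr xs (Sz ℓ κ) g.1 ++ List.replicate g.2.val true) < N := by
    intro g
    have h1 := leaf_len xs ℓ hxl (Sz ℓ κ) (8 * ℓ) g
    have h2 := idx_lt (addr xs (Sz ℓ κ) g.1 ++ List.replicate g.2.val true)
    have h3 : 2 ^ ((addr xs (Sz ℓ κ) g.1 ++
        List.replicate g.2.val true).length + 1) ≤ N :=
      Nat.pow_le_pow_right (by norm_num) (by omega)
    omega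
  have hsub : {A : Oracle | ∃ x : List Bool, x.length = ℓ ∧
      ¬ Few t (bitv A (8 * ℓ)) (Sz ℓ κ).reverse x} ⊆
      {A : Oracle | BL t (8 * ℓ) (Sz ℓ κ) (leaves xs (Sz ℓ κ) (8 * ℓ) A)} := by
    rintro A ⟨x, hx, hF⟩
    by_contra hB
    apply hF
    obtain ⟨j, hj⟩ := bitsOf_surj hx
    have := few_leaves t xs (Sz ℓ κ) (8 * ℓ) A hB j
    rw [hxs] at this
    beta_reduce at this
    rw [hj] at this
    exact this
  refine (measure_mono hsub).trans ((law_bl hn xs hxi hxl hpos).trans ?_)
  apply ENNReal.ofReal_le_ofReal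
  have hsum : (Sz ℓ κ).sum ≤ 64 * ℓ * (κ + 1) := by
    have h1 := List.sum_le_card_nsmul (Sz ℓ κ) (64 * ℓ) (Sz_le ℓ κ)
    rw [Sz_length, smul_eq_mul] at h1
    rw [mul_comm] at h1
    exact h1
  have hpow : ((2 ^ ℓ : ℕ) : ℝ) * 2 ^ (Sz ℓ κ).sum ≤ 2 ^ (ℓ + 64 * ℓ * (κ + 1)) := by
    push_cast
    rw [← pow_add]
    exact pow_le_pow_right₀ (by norm_num) (by omega)
  apply mul_le_mul_of_nonneg_right _ (by positivity)
  exact mul_le_mul_of_nonneg_left hpow (by positivity)

end Pool.Agent.W32.GPP
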